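import Mathlib

/-!
# Trees: the number of vertices of degree 3
-/

set_option autoImplicit false

namespace LSH.Lin

/-- A tree with `n ≥ 2` vertices has at most `(n - 2) / 2` vertices of degree 3. -/
theorem B3 (n : ℕ) (T : SimpleGraph (Fin n)) (hT : T.IsTree) (hn : 2 ≤ n) :
    2 * {v | (T.neighborSet v).ncard = 3}.ncard + 2 ≤ n := by
  classical
  have hnt : Nontrivial (Fin n) := Fin.nontrivial_iff_two_le.2 hn
  have hdeg : ∀ v, (T.neighborSet v).ncard = T.degree v := by
    intro v
    rw [← SimpleGraph.card_neighborSet_eq_degree, Set.ncard_eq_toFinset_card', Set.toFinset_card]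
  have h1 : T.edgeFinset.card + 1 = n := by
    have := hT.card_edgeFinset
    simpa using this
  have h2 := T.sum_degrees_eq_twice_card_edges
  have h3 : {v | (T.neighborSet v).ncard = 3}.ncard =
      (Finset.univ.filter fun v => T.degree v = 3).card := by
    rw [← Set.ncard_coe_finset]
    congr 1
    ext v
    simp [hdeg]
  have h4 : ∑ v : Fin n, (1 + 2 * (if T.degree v = 3 then 1 else 0)) ≤ ∑ v, T.degree v := by
    refine Finset.sum_le_sum fun v _ => ?_
    have hpos := hT.connected.preconnected.degree_pos_of_nontrivial v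
    split_ifs with h
    · omega
    · omega
  rw [Finset.sum_add_distrib, ← Finset.mul_sum, ← Finset.card_filter] at h4
  simp only [Finset.sum_const, Finset.card_univ, Fintype.card_fin, smul_eq_mul, mul_one] at h4
  rw [h3]
  omega

/-- `n + 12 b ≤ 7 n` -/
theorem B3_seven (n : ℕ) (T : SimpleGraph (Fin n)) (hT : T.IsTree) :
    n + 12 * {v | (T.neighborSet v).ncard = 3}.ncard ≤ 7 * n := by
  rcases Nat.lt_or_ge n 2 with h | h
  · have h0 : {v | (T.neighborSet v).ncard = 3} = ∅ := by
      rw [Set.eq_empty_iff_forall_notMem]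
      intro v hv
      have hv' : (T.neighborSet v).ncard = 3 := hv
      have h1 : (T.neighborSet v).ncard ≤ (Set.univ : Set (Fin n)).ncard :=
        Set.ncard_le_ncard (Set.subset_univ _) (Set.toFinite _)
      rw [Set.ncard_univ, Nat.card_eq_fintype_card, Fintype.card_fin] at h1
      omega
    rw [h0, Set.ncard_empty]
    omega
  · have := B3 n T hT h
    omega

end LSH.Lin
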